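import Mathlib

/-!
# The unit-arrow drift field never homogenizes in the pointwise sense (ii)

For every `d ≥ 1`, every `ε ∈ (0, 1/(2d))` and every `C > 0` the ratio `p_ω(n,x) / m_1(n,x)` of the
quenched and the averaged kernel does not converge to `1` in `μ`-measure for `|x| ≤ C √n`; hence the
model does not homogenize, whatever the dimension and however small `ε`.

Mechanism: with positive `μ`-probability no neighbour's arrow sends the walker to `y`, and then
`p_ω(n+1,y) = ε ∑ p_ω(n,y+a)`; with positive `μ`-probability all of them do, and then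
`p_ω(n+1,y) = (1-(2d-1)ε) ∑ p_ω(n,y+a)`.  If all the ratios involved were close to `1` with
`μ`-probability close to one, the deterministic numbers `m_1` would satisfy both relations
approximately.
-/

namespace Pool.Agent.Results.MP_31ab2b_pr.NotHomogenize

open MeasureTheory ProbabilityTheory Filter Topology
open scoped ENNReal NNReal BoundedContinuousFunction

/-- The sites of `ℤ^d`. -/
abbrev Site (d : ℕ) := Fin d → ℤ

/-- The unit arrows: `(i, true)` is `e_i` and `(i, false)` is `-e_i`. -/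
abbrev Arrow (d : ℕ) := Fin d × Bool

/-- The vector of `ℤ^d` of a unit arrow. -/
def Arrow.vec {d : ℕ} (a : Arrow d) : Site d := Pi.single a.1 (if a.2 then 1 else -1)

/-- An environment: a unit arrow `n_0(x, ω)` at every site `x`. -/
abbrev Env (d : ℕ) := Site d → Arrow d

/-- The law `μ`: independent arrows, each uniform on the `2d` unit arrows. -/
noncomputable def envLaw (d : ℕ) [NeZero d] : Measure (Env d) :=
  Measure.infinitePi (fun _ : Site d => (PMF.uniformOfFintype (Arrow d)).toMeasure)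

open Classical in
/-- The transition probability `p(x, z, ω)`: it is `1-(2d-1)ε` when `x - z = n_0(x, ω)`, it is `ε`
when `x - z` is one of the other unit vectors, and `0` otherwise. -/
noncomputable def trans {d : ℕ} (ε : ℝ) (ω : Env d) (x z : Site d) : ℝ :=
  if x - z = Arrow.vec (ω x) then 1 - (2 * d - 1) * ε
  else if ∃ a : Arrow d, x - z = Arrow.vec a then ε else 0

/-- `p_ω(n, x) = P^0_ω(X_n = x)`. -/
noncomputable def walk {d : ℕ} (ε : ℝ) (ω : Env d) : ℕ → Site d → ℝ
  | 0, z => if z = 0 then 1 else 0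
  | n + 1, z => ∑' x : Site d, walk ε ω n x * trans ε ω x z

/-- The averaged kernel `m_1(n, x) = ∫ p_ω(n, x) μ(dω)`. -/
noncomputable def avg {d : ℕ} [NeZero d] (ε : ℝ) (n : ℕ) (x : Site d) : ℝ :=
  ∫ ω, walk ε ω n x ∂(envLaw d)

/-- The Euclidean length of a site. -/
noncomputable def len {d : ℕ} (x : Site d) : ℝ := Real.sqrt (∑ i, (x i : ℝ) ^ 2)

/-- `sup { μ(|p_ω(n,x)/m_1(n,x) - 1| > δ) : |x| ≤ C √n, m_1(n,x) > 0 }`. -/
noncomputable def badSup (d : ℕ) [NeZero d] (ε C δ : ℝ) (n : ℕ) : ℝ≥0∞ :=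
  ⨆ (x : Site d) (_ : len x ≤ C * Real.sqrt n) (_ : 0 < avg ε n x),
    envLaw d {ω | δ < |walk ε ω n x / avg ε n x - 1|}

/-- The model homogenizes for the dimension `d` and the parameter `ε`. -/
structure Homogenizes (d : ℕ) [NeZero d] (ε : ℝ) : Prop where
  /-- (i): under the averaged law `X_n / √n` converges in law to the centred Gaussian with
  covariance `σ² I_d`, `v = σ² > 0`. -/
  clt : ∃ v : ℝ≥0, 0 < v ∧ ∀ f : (Fin d → ℝ) →ᵇ ℝ,
    Tendsto (fun n : ℕ => ∑' x : Site d, avg ε n x * f (fun i => (x i : ℝ) / Real.sqrt n)) atTop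
      (𝓝 (∫ y, f y ∂(Measure.pi fun _ : Fin d => gaussianReal 0 v)))
  /-- (ii) -/
  ratio : ∀ C : ℝ, 0 < C → ∀ δ : ℝ, 0 < δ → Tendsto (badSup d ε C δ) atTop (𝓝 0)

/-! ## Elementary facts -/

variable {d : ℕ}

instance [NeZero d] : IsProbabilityMeasure (envLaw d) := by
  unfold envLaw; infer_instance

lemma vec_injective : Function.Injective (Arrow.vec (d := d)) := by
  rintro ⟨i, b⟩ ⟨j, c⟩ h
  have h1 : (Pi.single i (if b then (1:ℤ) else -1) : Site d) = Pi.single j (if c then 1 else -1) := h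
  have hij : i = j := by
    by_contra hne
    have h2 := congrFun h1 i
    rw [Pi.single_eq_same, Pi.single_eq_of_ne hne] at h2
    cases b <;> simp at h2
  subst hij
  have h2 := congrFun h1 i
  rw [Pi.single_eq_same, Pi.single_eq_same] at h2
  cases b <;> cases c <;> simp_all

/-- The weight of the step `z + a → z`. -/
noncomputable def wt (ε : ℝ) (ω : Env d) (x : Site d) (a : Arrow d) : ℝ :=
  if ω x = a then 1 - (2 * d - 1) * ε else ε

lemma trans_add_vec (ε : ℝ) (ω : Env d) (z : Site d) (a : Arrow d) :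
    trans ε ω (z + a.vec) z = wt ε ω (z + a.vec) a := by
  unfold trans wt
  have h : z + a.vec - z = a.vec := by abel
  rw [h]
  by_cases h1 : ω (z + a.vec) = a
  · rw [if_pos (by rw [h1]), if_pos h1]
  · rw [if_neg (fun h2 => h1 (vec_injective h2).symm), if_pos ⟨a, rfl⟩, if_neg h1]

lemma trans_eq_zero (ε : ℝ) (ω : Env d) (x z : Site d)
    (h : ∀ a : Arrow d, x ≠ z + a.vec) : trans ε ω x z = 0 := by
  unfold trans
  rw [if_neg, if_neg]
  · rintro ⟨a, ha⟩
    exact h a (by rw [← ha]; abel)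
  · intro ha
    exact h _ (by rw [← ha]; abel)

lemma walk_succ (ε : ℝ) (ω : Env d) (n : ℕ) (z : Site d) :
    walk ε ω (n + 1) z = ∑ a : Arrow d, walk ε ω n (z + a.vec) * wt ε ω (z + a.vec) a := by
  classical
  have hinj : Function.Injective (fun a : Arrow d => z + a.vec) := by
    intro a b h
    exact vec_injective (add_left_cancel h)
  rw [walk, tsum_eq_sum (s := Finset.univ.image (fun a : Arrow d => z + a.vec))]
  · rw [Finset.sum_image (fun a _ b _ h => hinj h)]
    exact Finset.sum_congr rfl (fun a _ => by rw [trans_add_vec])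
  · intro x hx
    rw [trans_eq_zero, mul_zero]
    intro a ha
    exact hx (Finset.mem_image.2 ⟨a, Finset.mem_univ _, ha.symm⟩)

lemma big_gt {ε : ℝ} (h1 : ε < 1 / (2 * d)) (hd : 0 < d) : ε < 1 - (2 * d - 1) * ε := by
  have : ε * (2 * d) < 1 := by
    rw [lt_div_iff₀ (by positivity)] at h1; exact h1
  linarith

lemma wt_ge {ε : ℝ} (h1 : ε < 1 / (2 * d)) (hd : 0 < d) (ω : Env d) (x : Site d) (a : Arrow d) :
    ε ≤ wt ε ω x a := by
  unfold wt
  split_ifs
  · exact (big_gt h1 hd).le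
  · exact le_rfl

lemma wt_le {ε : ℝ} (h0 : 0 < ε) (h1 : ε < 1 / (2 * d)) (hd : 0 < d) (ω : Env d) (x : Site d)
    (a : Arrow d) : wt ε ω x a ≤ 1 := by
  have h2 := big_gt h1 hd
  have h3 : (1:ℝ) ≤ d := by exact_mod_cast hd
  unfold wt
  split_ifs
  · nlinarith
  · nlinarith

lemma walk_nonneg {ε : ℝ} (h0 : 0 < ε) (h1 : ε < 1 / (2 * d)) (hd : 0 < d) (ω : Env d) (n : ℕ) :
    ∀ x, 0 ≤ walk ε ω n x := by
  induction n with
  | zero => intro x; simp only [walk]; split_ifs <;> norm_num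
  | succ n ih =>
    intro x
    rw [walk_succ]
    exact Finset.sum_nonneg (fun a _ => mul_nonneg (ih _) (h0.le.trans (wt_ge h1 hd _ _ _)))

/-- A crude bound, enough for integrability. -/
lemma walk_le {ε : ℝ} (h0 : 0 < ε) (h1 : ε < 1 / (2 * d)) (hd : 0 < d) (ω : Env d) (n : ℕ) :
    ∀ x, walk ε ω n x ≤ (2 * d : ℝ) ^ n := by
  induction n with
  | zero => intro x; simp only [walk]; split_ifs <;> norm_num
  | succ n ih =>
    intro x
    rw [walk_succ]
    calc ∑ a : Arrow d, walk ε ω n (x + a.vec) * wt ε ω (x + a.vec) a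
        ≤ ∑ _a : Arrow d, (2 * d : ℝ) ^ n := by
          refine Finset.sum_le_sum (fun a _ => ?_)
          calc walk ε ω n (x + a.vec) * wt ε ω (x + a.vec) a
              ≤ walk ε ω n (x + a.vec) * 1 :=
                mul_le_mul_of_nonneg_left (wt_le h0 h1 hd _ _ _) (walk_nonneg h0 h1 hd _ _ _)
            _ ≤ (2 * d : ℝ) ^ n := by rw [mul_one]; exact ih _
      _ = (2 * d : ℝ) ^ (n + 1) := by
          rw [Finset.sum_const, nsmul_eq_mul]
          simp [Arrow, Fintype.card_prod]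
          ring

lemma walk_measurable (ε : ℝ) (n : ℕ) : ∀ x, Measurable (fun ω : Env d => walk ε ω n x) := by
  induction n with
  | zero => intro x; simp only [walk]; exact measurable_const
  | succ n ih =>
    intro x
    simp only [walk_succ]
    refine Finset.measurable_sum _ (fun a _ => (ih _).mul ?_)
    unfold wt
    refine Measurable.ite ?_ measurable_const measurable_const
    have : {ω : Env d | ω (x + a.vec) = a} = (fun ω : Env d => ω (x + a.vec)) ⁻¹' {a} := rfl
    rw [this]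
    exact (measurable_pi_apply _) (measurableSet_singleton _)

lemma walk_integrable [NeZero d] {ε : ℝ} (h0 : 0 < ε) (h1 : ε < 1 / (2 * d)) (n : ℕ) (x : Site d) :
    Integrable (fun ω : Env d => walk ε ω n x) (envLaw d) := by
  have hd : 0 < d := Nat.pos_of_ne_zero (NeZero.ne d)
  refine Integrable.of_bound (walk_measurable ε n x).aestronglyMeasurable ((2 * d : ℝ) ^ n)
    (Eventually.of_forall (fun ω => ?_))
  rw [Real.norm_eq_abs, abs_of_nonneg (walk_nonneg h0 h1 hd ω n x)]
  exact walk_le h0 h1 hd ω n x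

lemma avg_nonneg [NeZero d] {ε : ℝ} (h0 : 0 < ε) (h1 : ε < 1 / (2 * d)) (n : ℕ) (x : Site d) :
    0 ≤ avg ε n x :=
  integral_nonneg (fun ω => walk_nonneg h0 h1 (Nat.pos_of_ne_zero (NeZero.ne d)) ω n x)

/-- Step to a neighbour. -/
lemma walk_succ_ge {ε : ℝ} (h0 : 0 < ε) (h1 : ε < 1 / (2 * d)) (hd : 0 < d) (ω : Env d) (n : ℕ)
    (z : Site d) (a : Arrow d) : ε * walk ε ω n (z + a.vec) ≤ walk ε ω (n + 1) z := by
  rw [walk_succ]
  calc ε * walk ε ω n (z + a.vec) ≤ walk ε ω n (z + a.vec) * wt ε ω (z + a.vec) a := by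
        rw [mul_comm]
        exact mul_le_mul_of_nonneg_left (wt_ge h1 hd _ _ _) (walk_nonneg h0 h1 hd _ _ _)
    _ ≤ _ := Finset.single_le_sum
        (f := fun a : Arrow d => walk ε ω n (z + a.vec) * wt ε ω (z + a.vec) a)
        (fun b _ => mul_nonneg (walk_nonneg h0 h1 hd _ _ _) (h0.le.trans (wt_ge h1 hd _ _ _)))
        (Finset.mem_univ a)

/-- The opposite arrow. -/
def opp (a : Arrow d) : Arrow d := (a.1, !a.2)

lemma vec_opp (a : Arrow d) : (opp a).vec = -a.vec := by
  obtain ⟨i, b⟩ := a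
  unfold opp Arrow.vec
  cases b <;> simp [← Pi.single_neg]

lemma opp_ne (a : Arrow d) : opp a ≠ a := by
  obtain ⟨i, b⟩ := a
  unfold opp
  cases b <;> simp

lemma walk_even_zero {ε : ℝ} (h0 : 0 < ε) (h1 : ε < 1 / (2 * d)) (hd : 0 < d) (ω : Env d) (k : ℕ) :
    (ε ^ 2) ^ k ≤ walk ε ω (2 * k) 0 := by
  induction k with
  | zero => simp [walk]
  | succ k ih =>
    let a : Arrow d := (⟨0, hd⟩, true)
    have e1 := walk_succ_ge h0 h1 hd ω (2 * k + 1) 0 a
    have e2 := walk_succ_ge h0 h1 hd ω (2 * k) (0 + a.vec) (opp a)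
    rw [vec_opp, add_neg_cancel_right] at e2
    have : 2 * (k + 1) = 2 * k + 1 + 1 := by ring
    rw [this, pow_succ]
    calc (ε ^ 2) ^ k * ε ^ 2 ≤ walk ε ω (2 * k) 0 * ε ^ 2 :=
          mul_le_mul_of_nonneg_right ih (by positivity)
      _ = ε * (ε * walk ε ω (2 * k) 0) := by ring
      _ ≤ ε * walk ε ω (2 * k + 1) (0 + a.vec) := mul_le_mul_of_nonneg_left e2 h0.le
      _ ≤ _ := e1

lemma avg_even_zero [NeZero d] {ε : ℝ} (h0 : 0 < ε) (h1 : ε < 1 / (2 * d)) (k : ℕ) :
    0 < avg (d := d) ε (2 * k) 0 := by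
  have hd : 0 < d := Nat.pos_of_ne_zero (NeZero.ne d)
  have : (ε ^ 2) ^ k ≤ avg (d := d) ε (2 * k) 0 := by
    have e : ∫ _ω : Env d, (ε ^ 2) ^ k ∂(envLaw d) ≤ ∫ ω : Env d, walk ε ω (2 * k) 0 ∂(envLaw d) :=
      integral_mono (integrable_const _) (walk_integrable h0 h1 _ _)
        (fun ω => walk_even_zero h0 h1 hd ω k)
    rw [integral_const] at e
    simpa [avg] using e
  exact lt_of_lt_of_le (by positivity) this

/-! ## The two events -/

/-- Cylinder events at the neighbours of `y` have probability bounded below. -/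
lemma event_ge [NeZero d] (y : Site d) (f : Arrow d → Arrow d) :
    ((2 * d : ℝ≥0∞)⁻¹) ^ (2 * d) ≤ envLaw d {ω | ∀ a : Arrow d, ω (y + a.vec) = f a} := by
  classical
  have hinj : Function.Injective (fun a : Arrow d => y + a.vec) := by
    intro a b h
    exact vec_injective (add_left_cancel h)
  set s : Finset (Site d) := Finset.univ.image (fun a : Arrow d => y + a.vec) with hs
  have key : envLaw d (Set.pi (s : Set (Site d))
      (fun x => {b : Arrow d | ∀ a : Arrow d, y + a.vec = x → b = f a})) =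
      ∏ x ∈ s, (PMF.uniformOfFintype (Arrow d)).toMeasure
        {b : Arrow d | ∀ a : Arrow d, y + a.vec = x → b = f a} := by
    unfold envLaw
    exact Measure.infinitePi_pi _ (fun i _ => MeasurableSet.of_discrete)
  have hset : Set.pi (s : Set (Site d))
      (fun x => {b : Arrow d | ∀ a : Arrow d, y + a.vec = x → b = f a}) =
      {ω | ∀ a : Arrow d, ω (y + a.vec) = f a} := by
    ext ω
    simp only [Set.mem_pi, Set.mem_ofPred_eq, Finset.mem_coe, hs, Finset.mem_image,
      Finset.mem_univ, true_and]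
    constructor
    · intro h a
      exact h (y + a.vec) ⟨a, rfl⟩ a rfl
    · intro h x _ a hx
      rw [← hx]; exact h a
  rw [hset, hs, Finset.prod_image (fun a _ b _ h => hinj h)] at key
  rw [key]
  have hone : ∀ a : Arrow d, (2 * d : ℝ≥0∞)⁻¹ ≤ (PMF.uniformOfFintype (Arrow d)).toMeasure
        {b : Arrow d | ∀ a' : Arrow d, y + a'.vec = y + a.vec → b = f a'} := by
    intro a
    have e1 : {b : Arrow d | ∀ a' : Arrow d, y + a'.vec = y + a.vec → b = f a'} = {f a} := by
      ext b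
      simp only [Set.mem_ofPred_eq, Set.mem_singleton_iff]
      constructor
      · intro h; exact h a rfl
      · intro h a' ha'
        rw [hinj ha']; exact h
    rw [e1, PMF.toMeasure_apply_singleton _ _ (measurableSet_singleton _),
      PMF.uniformOfFintype_apply]
    simp [Arrow, Fintype.card_prod, mul_comm]
  calc ((2 * d : ℝ≥0∞)⁻¹) ^ (2 * d) = ∏ _a : Arrow d, (2 * d : ℝ≥0∞)⁻¹ := by
        rw [Finset.prod_const]
        simp [Arrow, Fintype.card_prod, mul_comm]
    _ ≤ _ := Finset.prod_le_prod' (fun a _ => hone a)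

/-! ## The main estimate -/

/-- If all bad probabilities are small, both events contain a good environment. -/
lemma exists_good [NeZero d] {ε δ : ℝ} (h0 : 0 < ε) (h1 : ε < 1 / (2 * d)) {n : ℕ} {y : Site d}
    {η : ℝ≥0∞} (hη : (2 * d + 1) * η < ((2 * d : ℝ≥0∞)⁻¹) ^ (2 * d))
    (hT : 0 < avg ε (n + 1) y →
      envLaw d {ω | δ < |walk ε ω (n + 1) y / avg ε (n + 1) y - 1|} ≤ η)
    (hS : ∀ a : Arrow d, 0 < avg ε n (y + a.vec) →
      envLaw d {ω | δ < |walk ε ω n (y + a.vec) / avg ε n (y + a.vec) - 1|} ≤ η)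
    (f : Arrow d → Arrow d) :
    ∃ ω : Env d, (∀ a, ω (y + a.vec) = f a) ∧
      |walk ε ω (n + 1) y - avg ε (n + 1) y| ≤ δ * avg ε (n + 1) y ∧
      ∀ a : Arrow d, |walk ε ω n (y + a.vec) - avg ε n (y + a.vec)| ≤ δ * avg ε n (y + a.vec) := by
  have hd : 0 < d := Nat.pos_of_ne_zero (NeZero.ne d)
  -- one-site bound
  have one : ∀ (m : ℕ) (x : Site d), (0 < avg ε m x →
      envLaw d {ω | δ < |walk ε ω m x / avg ε m x - 1|} ≤ η) →
      envLaw d {ω | ¬ |walk ε ω m x - avg ε m x| ≤ δ * avg ε m x} ≤ η := by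
    intro m x hx
    rcases (avg_nonneg h0 h1 m x).lt_or_eq with hpos | hzero
    · refine le_trans (measure_mono ?_) (hx hpos)
      intro ω hω
      simp only [Set.mem_ofPred_eq, not_le] at hω ⊢
      have : walk ε ω m x / avg ε m x - 1 = (walk ε ω m x - avg ε m x) / avg ε m x := by
        field_simp
      rw [this, abs_div, abs_of_pos hpos, lt_div_iff₀ hpos]
      exact hω
    · have hae : (fun ω : Env d => walk ε ω m x) =ᵐ[envLaw d] 0 := by
        rw [← integral_eq_zero_iff_of_nonneg (fun ω => walk_nonneg h0 h1 hd ω m x)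
          (walk_integrable h0 h1 m x)]
        exact hzero.symm
      have hnull : envLaw d {ω | ¬ |walk ε ω m x - avg ε m x| ≤ δ * avg ε m x} = 0 := by
        refine measure_mono_null ?_ (ae_iff.1 hae)
        intro ω hω hz
        apply hω
        simp only [Pi.zero_apply] at hz
        rw [hz, ← hzero]; simp
      rw [hnull]; exact zero_le
  by_contra hcon
  push Not at hcon
  have hsub : {ω : Env d | ∀ a : Arrow d, ω (y + a.vec) = f a} ⊆
      {ω | ¬ |walk ε ω (n + 1) y - avg ε (n + 1) y| ≤ δ * avg ε (n + 1) y} ∪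
      ⋃ a ∈ (Finset.univ : Finset (Arrow d)),
        {ω | ¬ |walk ε ω n (y + a.vec) - avg ε n (y + a.vec)| ≤ δ * avg ε n (y + a.vec)} := by
    intro ω hω
    by_cases h : |walk ε ω (n + 1) y - avg ε (n + 1) y| ≤ δ * avg ε (n + 1) y
    · right
      obtain ⟨a, ha⟩ := hcon ω hω h
      simp only [Set.mem_iUnion]
      exact ⟨a, Finset.mem_univ a, not_le.2 ha⟩
    · left; exact h
  have hle : envLaw d {ω : Env d | ∀ a : Arrow d, ω (y + a.vec) = f a} ≤ (2 * d + 1) * η := by
    calc envLaw d {ω : Env d | ∀ a : Arrow d, ω (y + a.vec) = f a}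
        ≤ envLaw d {ω | ¬ |walk ε ω (n + 1) y - avg ε (n + 1) y| ≤ δ * avg ε (n + 1) y} +
          envLaw d (⋃ a ∈ (Finset.univ : Finset (Arrow d)),
            {ω | ¬ |walk ε ω n (y + a.vec) - avg ε n (y + a.vec)| ≤ δ * avg ε n (y + a.vec)}) :=
          (measure_mono hsub).trans (measure_union_le _ _)
      _ ≤ η + ∑ a : Arrow d, η := by
          refine add_le_add (one _ _ hT) ((measure_biUnion_finset_le _ _).trans ?_)
          exact Finset.sum_le_sum (fun a _ => one _ _ (hS a))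
      _ = (2 * d + 1) * η := by
          rw [Finset.sum_const, nsmul_eq_mul]
          simp [Arrow, Fintype.card_prod]
          ring
  exact absurd (lt_of_lt_of_le (lt_of_le_of_lt hle hη) (event_ge y f)) (lt_irrefl _)

/-- The two relations are incompatible. -/
lemma sum_eq_zero_of_small [NeZero d] {ε : ℝ} (h0 : 0 < ε) (h1 : ε < 1 / (2 * d)) {n : ℕ}
    {y : Site d} {η : ℝ≥0∞} (hη : (2 * d + 1) * η < ((2 * d : ℝ≥0∞)⁻¹) ^ (2 * d))
    (hT : 0 < avg ε (n + 1) y →
      envLaw d {ω | (1 - 2 * d * ε) / 4 < |walk ε ω (n + 1) y / avg ε (n + 1) y - 1|} ≤ η)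
    (hS : ∀ a : Arrow d, 0 < avg ε n (y + a.vec) →
      envLaw d {ω | (1 - 2 * d * ε) / 4 < |walk ε ω n (y + a.vec) / avg ε n (y + a.vec) - 1|} ≤ η) :
    ∑ a : Arrow d, avg ε n (y + a.vec) = 0 := by
  have hd : 0 < d := Nat.pos_of_ne_zero (NeZero.ne d)
  have hbig := big_gt h1 hd
  have hd1 : (1:ℝ) ≤ d := by exact_mod_cast hd
  set δ : ℝ := (1 - 2 * d * ε) / 4 with hδ
  set q : ℝ := 1 - (2 * d - 1) * ε with hq
  set T := avg ε (n + 1) y
  set S := ∑ a : Arrow d, avg ε n (y + a.vec) with hSdef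
  have hS0 : 0 ≤ S := Finset.sum_nonneg (fun a _ => avg_nonneg h0 h1 _ _)
  have hδ0 : 0 < δ := by rw [hδ]; linarith
  have hδ1 : δ < 1 := by rw [hδ]; nlinarith
  -- the environment without arrows to `y`
  obtain ⟨ω₁, ha1, hT1, hS1⟩ := exists_good h0 h1 hη hT hS opp
  obtain ⟨ω₂, ha2, hT2, hS2⟩ := exists_good h0 h1 hη hT hS id
  have w1 : walk ε ω₁ (n + 1) y = ε * ∑ a : Arrow d, walk ε ω₁ n (y + a.vec) := by
    rw [walk_succ, Finset.mul_sum]
    refine Finset.sum_congr rfl (fun a _ => ?_)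
    unfold wt
    rw [ha1 a, if_neg (opp_ne a), mul_comm]
  have w2 : walk ε ω₂ (n + 1) y = q * ∑ a : Arrow d, walk ε ω₂ n (y + a.vec) := by
    rw [walk_succ, Finset.mul_sum]
    refine Finset.sum_congr rfl (fun a _ => ?_)
    unfold wt
    rw [ha2 a, if_pos (show id a = a from rfl), mul_comm]
  have s1 : ∑ a : Arrow d, walk ε ω₁ n (y + a.vec) ≤ (1 + δ) * S := by
    rw [hSdef, Finset.mul_sum]
    refine Finset.sum_le_sum (fun a _ => ?_)
    have := (abs_le.1 (hS1 a)).2
    linarith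
  have s2 : (1 - δ) * S ≤ ∑ a : Arrow d, walk ε ω₂ n (y + a.vec) := by
    rw [hSdef, Finset.mul_sum]
    refine Finset.sum_le_sum (fun a _ => ?_)
    have := (abs_le.1 (hS2 a)).1
    linarith
  have t1 : (1 - δ) * T ≤ ε * ((1 + δ) * S) := by
    have := (abs_le.1 hT1).1
    have h2 : ε * ∑ a : Arrow d, walk ε ω₁ n (y + a.vec) ≤ ε * ((1 + δ) * S) :=
      mul_le_mul_of_nonneg_left s1 h0.le
    rw [w1] at this
    linarith
  have hq0 : 0 < q := h0.trans hbig
  have t2 : q * ((1 - δ) * S) ≤ (1 + δ) * T := by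
    have := (abs_le.1 hT2).2
    have h2 : q * ((1 - δ) * S) ≤ q * ∑ a : Arrow d, walk ε ω₂ n (y + a.vec) :=
      mul_le_mul_of_nonneg_left s2 hq0.le
    rw [w2] at this
    linarith
  -- combine
  have comb : (q * (1 - δ) ^ 2 - ε * (1 + δ) ^ 2) * S ≤ 0 := by
    have e1 : (1 + δ) * ((1 - δ) * T) ≤ (1 + δ) * (ε * ((1 + δ) * S)) :=
      mul_le_mul_of_nonneg_left t1 (by linarith)
    have e2 : (1 - δ) * (q * ((1 - δ) * S)) ≤ (1 - δ) * ((1 + δ) * T) :=
      mul_le_mul_of_nonneg_left t2 (by linarith)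
    nlinarith
  have hpos : 0 < q * (1 - δ) ^ 2 - ε * (1 + δ) ^ 2 := by
    have hqe : q - ε = 4 * δ := by rw [hq, hδ]; ring
    have hqe2 : q + ε ≤ 1 := by
      have : 0 ≤ (2 * d - 2) * ε := mul_nonneg (by linarith) h0.le
      rw [hq]; linarith
    have e1 : q * (1 - δ) ^ 2 - ε * (1 + δ) ^ 2 = (q - ε) * (1 + δ ^ 2) - 2 * δ * (q + ε) := by ring
    rw [e1, hqe]
    have e2 : 2 * δ * (q + ε) ≤ 2 * δ * 1 := mul_le_mul_of_nonneg_left hqe2 (by linarith)
    have e3 : 0 < δ ^ 3 := by positivity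
    nlinarith
  by_contra hne
  have hSpos : 0 < S := lt_of_le_of_ne hS0 (Ne.symm hne)
  have := mul_pos hpos hSpos
  linarith

lemma len_opp_vec (a : Arrow d) : len (-a.vec) = 1 := by
  classical
  unfold len Arrow.vec
  have : ∑ i, ((-(Pi.single a.1 (if a.2 then (1:ℤ) else -1)) : Site d) i : ℝ) ^ 2 = 1 := by
    rw [Finset.sum_eq_single a.1]
    · cases a.2 <;> simp
    · intro j _ hj
      simp [Pi.single_eq_of_ne hj]
    · intro h; exact absurd (Finset.mem_univ _) h
  rw [this, Real.sqrt_one]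

lemma len_add_le (x y : Site d) : len (x + y) ≤ len x + len y := by
  have h : ∀ z : Site d, len z = ‖(WithLp.toLp 2 (fun i => (z i : ℝ)) : EuclideanSpace ℝ (Fin d))‖ := by
    intro z
    rw [EuclideanSpace.norm_eq]
    simp [len]
  rw [h, h, h]
  have : (WithLp.toLp 2 (fun i => ((x + y) i : ℝ)) : EuclideanSpace ℝ (Fin d)) =
      WithLp.toLp 2 (fun i => (x i : ℝ)) + WithLp.toLp 2 (fun i => (y i : ℝ)) := by
    ext i; simp
  rw [this]
  exact norm_add_le _ _

lemma len_vec (a : Arrow d) : len a.vec = 1 := by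
  have h := len_opp_vec (opp a)
  rwa [vec_opp, neg_neg] at h

/-- **(ii) fails for every `C`.** -/
theorem ratio_fails [NeZero d] {ε : ℝ} (h0 : 0 < ε) (h1 : ε < 1 / (2 * d)) {C : ℝ} (hC : 0 < C) :
    ¬ Tendsto (badSup d ε C ((1 - 2 * d * ε) / 4)) atTop (𝓝 0) := by
  intro hlim
  have hd : 0 < d := Nat.pos_of_ne_zero (NeZero.ne d)
  -- choose `η`
  have hκ : 0 < ((2 * d : ℝ≥0∞)⁻¹) ^ (2 * d) := by
    apply ENNReal.pow_pos
    rw [ENNReal.inv_pos]
    exact ENNReal.mul_ne_top (by norm_num) (ENNReal.natCast_ne_top d)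
  obtain ⟨η, hη0, hη⟩ : ∃ η : ℝ≥0∞, 0 < η ∧ (2 * d + 1) * η < ((2 * d : ℝ≥0∞)⁻¹) ^ (2 * d) := by
    have hne : (2 * d + 1 : ℝ≥0∞) ≠ ⊤ := by
      exact ENNReal.add_ne_top.2 ⟨ENNReal.mul_ne_top (by norm_num) (ENNReal.natCast_ne_top d),
        by norm_num⟩
    have hne0 : (2 * d + 1 : ℝ≥0∞) ≠ 0 := by positivity
    obtain ⟨c, hc0, hc⟩ := exists_between hκ
    refine ⟨c / (2 * d + 1), ENNReal.div_pos hc0.ne' hne, ?_⟩
    rw [ENNReal.mul_div_cancel hne0 hne]
    exact hc
  have hev : ∀ᶠ n in atTop, badSup d ε C ((1 - 2 * d * ε) / 4) n < η :=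
    (tendsto_order.1 hlim).2 η hη0
  obtain ⟨N, hN⟩ := eventually_atTop.1 hev
  obtain ⟨M, hM⟩ := exists_nat_gt (2 / C)
  set k : ℕ := max N (M ^ 2) with hk
  have hkN : N ≤ k := le_max_left _ _
  have hkM : M ^ 2 ≤ k := le_max_right _ _
  -- lengths
  have hlen : ∀ m : ℕ, k ≤ m → 2 ≤ C * Real.sqrt m := by
    intro m hm
    have e1 : (M : ℝ) ≤ Real.sqrt m := by
      apply Real.le_sqrt_of_sq_le
      exact_mod_cast hkM.trans hm
    have e2 : 2 / C ≤ Real.sqrt m := hM.le.trans e1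
    rw [div_le_iff₀ hC] at e2
    linarith
  let a₀ : Arrow d := (⟨0, hd⟩, true)
  set y : Site d := -a₀.vec with hy
  have hylen : len y = 1 := len_opp_vec a₀
  have hyalen : ∀ a : Arrow d, len (y + a.vec) ≤ 2 := by
    intro a
    have := len_add_le y a.vec
    rw [hylen, len_vec] at this
    linarith
  have hz := sum_eq_zero_of_small (n := 2 * k) (y := y) h0 h1 hη
    (by
      intro hpos
      refine le_trans ?_ (hN (2 * k + 1) (by omega)).le
      unfold badSup
      refine le_trans ?_ (le_iSup _ y)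
      refine le_trans ?_ (le_iSup _ (by rw [hylen]; have := hlen (2 * k + 1) (by omega); linarith))
      exact le_iSup (fun _ : 0 < avg ε (2 * k + 1) y => envLaw d {ω | (1 - 2 * d * ε) / 4 <
        |walk ε ω (2 * k + 1) y / avg ε (2 * k + 1) y - 1|}) hpos)
    (by
      intro a hpos
      refine le_trans ?_ (hN (2 * k) (by omega)).le
      unfold badSup
      refine le_trans ?_ (le_iSup _ (y + a.vec))
      refine le_trans ?_ (le_iSup _ ((hyalen a).trans (hlen (2 * k) (by omega))))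
      exact le_iSup (fun _ : 0 < avg ε (2 * k) (y + a.vec) => envLaw d {ω | (1 - 2 * d * ε) / 4 <
        |walk ε ω (2 * k) (y + a.vec) / avg ε (2 * k) (y + a.vec) - 1|}) hpos)
  have hall := (Finset.sum_eq_zero_iff_of_nonneg (fun a _ => avg_nonneg h0 h1 (2 * k) (y + a.vec))).1
    hz a₀ (Finset.mem_univ a₀)
  have : y + a₀.vec = 0 := by rw [hy]; simp
  rw [this] at hall
  exact absurd hall (avg_even_zero h0 h1 k).ne'

/-- **Main result.** For every dimension `d ≥ 1` and every `ε ∈ (0, 1/(2d))` the model does not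
homogenize; in particular for no `d ≥ 3` is there an `ε₀ > 0` such that the model homogenizes for
all `ε ∈ (0, ε₀)`. By `ratio_fails`, (ii) fails for each single `C > 0`. -/
theorem result (d : ℕ) [NeZero d] (ε : ℝ) (h0 : 0 < ε) (h1 : ε < 1 / (2 * d)) :
    ¬ Homogenizes d ε := by
  intro h
  have hd : 0 < d := Nat.pos_of_ne_zero (NeZero.ne d)
  refine ratio_fails h0 h1 one_pos (h.ratio 1 one_pos _ ?_)
  have := big_gt h1 hd
  linarith

end Pool.Agent.Results.MP_31ab2b_pr.NotHomogenize
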